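import Mathlib

set_option autoImplicit false

/-!
# Vanishing of descendant Gromov-Witten invariants of monotone manifolds

The moduli spaces of stable maps and their virtual classes are not available in Mathlib, so the
theorem is stated for a `GWTheory`, a package that records the (even) cohomology rings of the
spaces `Mbar_{g,N}(X, β)` and `Mbar_{g,N}`, the virtual integration functionals, the evaluation,
cotangent-line and stabilisation classes, together with the standard facts about them which the
proof needs. The Gromov-Witten theory of a compact symplectic manifold is such a package.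
-/

namespace Pool.Agent.Results.MP_b03aaa_ag

open Finset

/-- The cohomological data of a compact symplectic manifold `X`. -/
structure Target where
  /-- `H_2(X; ℤ)` -/
  H2 : Type
  [grpH2 : AddCommGroup H2]
  /-- the even cohomology `H^{2*}(X; ℚ)` -/
  V : Type
  [grpV : AddCommGroup V]
  [modV : Module ℚ V]
  /-- the complex dimension of `X` -/
  dim : ℕ
  /-- `H^{2c}(X; ℚ)` -/
  gr : ℕ → Submodule ℚ V
  /-- there is no cohomology above the dimension -/
  gr_top : ∀ c, dim < c → ∀ v ∈ gr c, v = 0
  /-- the first Chern class, evaluated on `H_2(X; ℤ)` -/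
  c1 : H2 →+ ℤ
  /-- the homology classes of the non-constant pseudo-holomorphic maps `S^2 → X` -/
  sph : Set H2
  /-- the index set of a homogeneous basis of the even cohomology of `X` -/
  ι : Type
  [finι : Fintype ι]
  /-- a homogeneous basis `T_e` -/
  T : ι → V
  /-- the dual basis `T^e` with respect to the intersection pairing -/
  Tdual : ι → V
  /-- the degrees of the basis elements -/
  deg : ι → ℕ
  T_mem : ∀ e, T e ∈ gr (deg e)

attribute [instance] Target.grpH2 Target.grpV Target.modV Target.finι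

/-- The cohomological data of the moduli spaces `Mbar_{g,N}` and `Mbar_{g,N}(X, β)`. -/
structure Moduli (X : Target) where
  /-- the even cohomology ring of `Mbar_{g,N}` -/
  B : ℕ → ℕ → Type
  [ringB : ∀ g N, CommRing (B g N)]
  /-- the class `ψ_s` on `Mbar_{g,N}` -/
  psibar : ∀ g N : ℕ, Fin N → B g N
  /-- the even cohomology ring of `Mbar_{g,N}(X, β)` -/
  A : ℕ → ℕ → X.H2 → Type
  [ringA : ∀ g N β, CommRing (A g N β)]
  /-- integration over the virtual fundamental class -/
  integral : ∀ (g N : ℕ) (β : X.H2), A g N β →+ ℚ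
  /-- the class `ψ_s` on `Mbar_{g,N}(X, β)`: first Chern class of the universal cotangent line at
  the marked point `s` -/
  psi : ∀ (g N : ℕ) (β : X.H2), Fin N → A g N β
  /-- pull-back by the evaluation map at the marked point `s` -/
  ev : ∀ (g N : ℕ) (β : X.H2), Fin N → X.V →+ A g N β
  /-- pull-back by the stabilisation map `Mbar_{g,N}(X, β) → Mbar_{g,N}` -/
  st : ∀ (g N : ℕ) (β : X.H2), B g N →+* A g N β

attribute [instance] Moduli.ringB Moduli.ringA

namespace Moduli

variable {X : Target} (M : Moduli X)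

/-- the two-pointed genus zero invariant `⟨τ_k v, w⟩_{0,β}` -/
noncomputable def twoPoint (β : X.H2) (k : ℕ) (v w : X.V) : ℚ :=
  M.integral 0 2 β (M.psi 0 2 β 0 ^ k * M.ev 0 2 β 0 v * M.ev 0 2 β 1 w)

/-- the product of the insertions `τ_{b_t} H_t`, `t ∈ U`, on `Mbar_{g,N}(X, β)` -/
noncomputable def insertions (g N : ℕ) (β : X.H2) (U : Finset (Fin N)) (b : Fin N → ℕ)
    (H : Fin N → X.V) : M.A g N β :=
  ∏ t ∈ U, (M.psi g N β t ^ b t * M.ev g N β t (H t))

/-- the descendant invariant `⟨τ_{b_1} H_1, ..., τ_{b_N} H_N⟩_{g,β}` -/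
noncomputable def invariant (g N : ℕ) (β : X.H2) (b : Fin N → ℕ) (H : Fin N → X.V) : ℚ :=
  M.integral g N β (M.insertions g N β univ b H)

/-- `Mbar_{g,N}` has complex dimension `3 g - 3 + N`: monomials of higher degree in the classes
`ψ_s` on `Mbar_{g,N}` vanish. -/
def PsibarTop : Prop :=
  ∀ g N : ℕ, 3 ≤ 2 * g + N → ∀ a : Fin N → ℕ,
    (3 * (g : ℤ) - 3 + N < ∑ s, (a s : ℤ)) → ∏ s, M.psibar g N s ^ a s = 0

/-- Dimension axiom for two-pointed genus zero invariants: the virtual dimension of
`Mbar_{0,2}(X, β)` is `dim X - 1 + c_1(β)`. -/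
def TwoPointDim : Prop :=
  ∀ (β : X.H2) (k c d : ℕ) (v w : X.V), v ∈ X.gr c → w ∈ X.gr d →
    M.twoPoint β k v w ≠ 0 → (k : ℤ) + c + d = X.dim - 1 + X.c1 β

/-- Effectivity: if a two-pointed genus zero invariant in a class `β ≠ 0` is not zero, then `β`
is represented by a genus zero stable map, so it is a sum of one or more classes of
non-constant pseudo-holomorphic spheres. -/
def TwoPointEff : Prop :=
  ∀ (β : X.H2), β ≠ 0 → ∀ (k : ℕ) (v w : X.V), M.twoPoint β k v w ≠ 0 →
    ∃ m : Multiset X.H2, m ≠ 0 ∧ (∀ γ ∈ m, γ ∈ X.sph) ∧ m.sum = β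

/-- The integral over `Mbar_{g,N}(X, β)` of the class `x * ψ_s^k * ev_s^* v * st^* θ` times the
insertions `τ_{b_t} H_t` at the marked points `t ≠ s`. -/
noncomputable def intWith (g N : ℕ) (β : X.H2) (s : Fin N) (x : M.A g N β) (k : ℕ) (v : X.V)
    (θ : M.B g N) (b : Fin N → ℕ) (H : Fin N → X.V) : ℚ :=
  M.integral g N β (x * (M.psi g N β s ^ k * M.ev g N β s v * M.st g N β θ *
    M.insertions g N β (univ.erase s) b H))

/-- Comparison of the cotangent lines and splitting axiom. In the stable range,
`ψ_s - st^* ψ_s` is the (virtual) boundary divisor on which the marked point `s` lies alone on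
a genus zero component that is contracted by the stabilisation. This divisor is the union over
the finitely many decompositions `β = β₁ + β₂`, `β₁ ≠ 0`, of the fibre products over `X` of
`Mbar_{0,2}(X, β₁)` (carrying `s` and the node) and `Mbar_{g,N}(X, β₂)` (on which the node
replaces the marked point `s`), and the diagonal of `X` is `∑ T_e ⊗ T^e` (odd classes do not
contribute to two-pointed invariants with even insertions, by the dimension axiom). -/
def Comparison : Prop :=
  ∀ (g N : ℕ) (β : X.H2), 3 ≤ 2 * g + N → ∃ P : Finset X.H2, (∀ β₁ ∈ P, β₁ ≠ 0) ∧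
    ∀ (s : Fin N) (k : ℕ) (v : X.V) (θ : M.B g N) (b : Fin N → ℕ) (H : Fin N → X.V),
      M.intWith g N β s (M.psi g N β s - M.st g N β (M.psibar g N s)) k v θ b H =
        ∑ β₁ ∈ P, ∑ e, M.twoPoint β₁ k v (X.T e) *
          M.intWith g N (β - β₁) s 1 0 (X.Tdual e) θ b H

end Moduli

/-- The Gromov-Witten theory of a compact symplectic manifold `X`: the data of the moduli spaces
`Mbar_{g,N}` and `Mbar_{g,N}(X, β)` with their standard properties. -/
structure GWTheory (X : Target) extends Moduli X where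
  psibar_top : toModuli.PsibarTop
  two_point_dim : toModuli.TwoPointDim
  two_point_eff : toModuli.TwoPointEff
  comparison : toModuli.Comparison

/-- The first Chern number of every non-constant pseudo-holomorphic sphere in `X` is at least
`ν > 0` (as for a monotone manifold with minimal Chern number `ν`). -/
def Target.MinimalChern (X : Target) (ν : ℝ) : Prop := 0 < ν ∧ ∀ γ ∈ X.sph, ν ≤ (X.c1 γ : ℝ)

variable {X : Target}

lemma le_c1_sum {ν : ℝ} (hν : X.MinimalChern ν) (m : Multiset X.H2) (h0 : m ≠ 0)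
    (hm : ∀ γ ∈ m, γ ∈ X.sph) : ν ≤ (X.c1 m.sum : ℝ) := by
  induction m using Multiset.induction_on with
  | empty => exact absurd rfl h0
  | cons γ m ih =>
    rw [Multiset.sum_cons, map_add]
    push_cast
    have h1 := hν.2 γ (hm γ (Multiset.mem_cons_self _ _))
    by_cases h : m = 0
    · subst h; simpa using h1
    · have h2 := ih h (fun x hx => hm x (Multiset.mem_cons_of_mem hx))
      linarith [hν.1]

/-- the two-pointed genus zero invariants entering the comparison vanish -/
lemma two_point_zero (G : GWTheory X) {ν : ℝ} (hν : X.MinimalChern ν) {β : X.H2} (hβ : β ≠ 0)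
    {k c : ℕ} {v : X.V} (hv : v ∈ X.gr c) (hkc : (k : ℝ) + 1 + c < ν) (e : X.ι) :
    G.twoPoint β k v (X.T e) = 0 := by
  by_contra h
  obtain ⟨m, hm0, hm, hsum⟩ := G.two_point_eff β hβ k v (X.T e) h
  have h1 := le_c1_sum hν m hm0 hm
  rw [hsum] at h1
  have h2 := G.two_point_dim β k c (X.deg e) v (X.T e) hv (X.T_mem e) h
  have h3 : X.deg e ≤ X.dim := by
    by_contra h3
    push Not at h3
    apply h
    unfold Moduli.twoPoint
    rw [X.gr_top _ h3 _ (X.T_mem e)]
    simp
  have h4 : (k : ℝ) + c + X.deg e = X.dim - 1 + X.c1 β := by exact_mod_cast h2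
  have h5 : (X.deg e : ℝ) ≤ X.dim := by exact_mod_cast h3
  linarith

/-- mixed ancestor-descendant integrals -/
noncomputable def mixed (M : Moduli X) (g N : ℕ) (β : X.H2) (θ : M.B g N) (b : Fin N → ℕ)
    (H : Fin N → X.V) : ℚ :=
  M.integral g N β (M.st g N β θ * M.insertions g N β univ b H)

lemma step (G : GWTheory X) {ν : ℝ} (hν : X.MinimalChern ν) {g N : ℕ} (hst : 3 ≤ 2 * g + N)
    (β : X.H2) (s : Fin N) {k c : ℕ} (v : X.V) (θ : G.B g N) (b : Fin N → ℕ) (H : Fin N → X.V)
    (hv : v ∈ X.gr c) (hkc : (k : ℝ) + 1 + c < ν) :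
    G.intWith g N β s 1 (k + 1) v θ b H =
      G.intWith g N β s 1 k v (G.psibar g N s * θ) b H := by
  obtain ⟨P, hP, h⟩ := G.comparison g N β hst
  have h := h s k v θ b H
  rw [sum_eq_zero fun β₁ hβ₁ => sum_eq_zero fun e _ => by
    rw [two_point_zero G hν (hP β₁ hβ₁) hv hkc e, zero_mul]] at h
  unfold Moduli.intWith at h ⊢
  rw [sub_mul, map_sub, sub_eq_zero] at h
  convert h using 2
  · ring
  · rw [map_mul]; ring

lemma step_pow (G : GWTheory X) {ν : ℝ} (hν : X.MinimalChern ν) {g N : ℕ}
    (hst : 3 ≤ 2 * g + N) (β : X.H2) (s : Fin N) {c : ℕ} (v : X.V) (b : Fin N → ℕ)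
    (H : Fin N → X.V) (hv : v ∈ X.gr c) (k : ℕ) :
    ∀ θ : G.B g N, (k : ℝ) + c < ν →
    G.intWith g N β s 1 k v θ b H =
      G.intWith g N β s 1 0 v (G.psibar g N s ^ k * θ) b H := by
  induction k with
  | zero => intro θ _; simp
  | succ k ih =>
    intro θ hk
    push_cast at hk
    rw [step G hν hst β s v θ b H hv hk, ih _ (by linarith)]
    congr 1
    ring

lemma mixed_eq_intWith (M : Moduli X) (g N : ℕ) (β : X.H2) (θ : M.B g N) (b : Fin N → ℕ)
    (H : Fin N → X.V) (s : Fin N) :
    mixed M g N β θ b H = M.intWith g N β s 1 (b s) (H s) θ b H := by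
  unfold mixed Moduli.intWith Moduli.insertions
  rw [← mul_prod_erase univ _ (mem_univ s)]
  congr 1
  ring

lemma mixed_update (G : GWTheory X) {ν : ℝ} (hν : X.MinimalChern ν) {g N : ℕ}
    (hst : 3 ≤ 2 * g + N) (β : X.H2) (s : Fin N) {c : ℕ} (θ : G.B g N) (b : Fin N → ℕ)
    (H : Fin N → X.V) (hH : H s ∈ X.gr c) (hb : (b s : ℝ) + c < ν) :
    mixed G.toModuli g N β θ b H =
      mixed G.toModuli g N β (G.psibar g N s ^ b s * θ) (Function.update b s 0) H := by
  rw [mixed_eq_intWith _ g N β θ b H s, mixed_eq_intWith _ g N β _ _ H s,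
    step_pow G hν hst β s (H s) b H hH (b s) θ hb, Function.update_self]
  unfold Moduli.intWith Moduli.insertions
  have h2 : ∏ t ∈ univ.erase s, (G.psi g N β t ^ (Function.update b s 0) t *
      G.ev g N β t (H t)) = ∏ t ∈ univ.erase s, (G.psi g N β t ^ b t * G.ev g N β t (H t)) := by
    refine prod_congr rfl fun t ht => ?_
    rw [Function.update_of_ne (ne_of_mem_erase ht)]
  rw [h2]

lemma mixed_finset (G : GWTheory X) {ν : ℝ} (hν : X.MinimalChern ν) {g N : ℕ}
    (hst : 3 ≤ 2 * g + N) (β : X.H2) (b c : Fin N → ℕ) (H : Fin N → X.V)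
    (hH : ∀ s, H s ∈ X.gr (c s)) (S : Finset (Fin N)) :
    ∀ θ : G.B g N, (∀ s ∈ S, (b s : ℝ) + c s < ν) →
    mixed G.toModuli g N β θ b H =
      mixed G.toModuli g N β ((∏ s ∈ S, G.psibar g N s ^ b s) * θ)
        (fun t => if t ∈ S then 0 else b t) H := by
  induction S using Finset.induction_on with
  | empty => intro θ _; simp
  | insert s S hs ih =>
    intro θ hS
    rw [ih θ (fun t ht => hS t (mem_insert_of_mem ht))]
    have h := mixed_update G hν hst β s ((∏ t ∈ S, G.psibar g N t ^ b t) * θ)
      (fun t => if t ∈ S then 0 else b t) H (hH s)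
      (by simpa [hs] using hS s (mem_insert_self s S))
    rw [h]
    simp only [hs, if_false]
    rw [prod_insert hs, ← mul_assoc]
    congr 1
    funext t
    by_cases hts : t = s
    · subst hts; simp
    · rw [Function.update_of_ne hts]
      simp [hts]

/-- **Vanishing of descendant invariants.** Let `G` be the Gromov-Witten theory of a compact
monotone symplectic manifold `X` with minimal Chern number `ν`. Suppose `2g + N ≥ 3`, let
`H_s ∈ H^{2 c_s}(X)` and let `S` be a set of marked points with `b_s + c_s < ν` for `s ∈ S` and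
`∑_{s ∈ S} b_s > 3(g - 1) + N`. Then `⟨τ_{b_1} H_1, ..., τ_{b_N} H_N⟩_{g,β} = 0` for all `β`. -/
theorem DescendantVanishing.result (X : Target) (G : GWTheory X) (ν : ℝ)
    (hν : X.MinimalChern ν) (g N : ℕ) (hst : 3 ≤ 2 * g + N) (b c : Fin N → ℕ)
    (H : Fin N → X.V) (hH : ∀ s, H s ∈ X.gr (c s)) (S : Finset (Fin N))
    (hS : ∀ s ∈ S, (b s : ℝ) + c s < ν)
    (hsum : 3 * ((g : ℤ) - 1) + N < ∑ s ∈ S, (b s : ℤ)) (β : X.H2) :
    G.invariant g N β b H = 0 := by
  have h1 : G.invariant g N β b H = mixed G.toModuli g N β 1 b H := by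
    unfold Moduli.invariant mixed
    rw [map_one, one_mul]
  rw [h1, mixed_finset G hν hst β b c H hH S 1 hS]
  have h2 : ∏ s ∈ S, G.psibar g N s ^ b s = 0 := by
    have h3 := G.psibar_top g N hst (fun s => if s ∈ S then b s else 0) (by
      have : ∑ s, (((if s ∈ S then b s else 0 : ℕ)) : ℤ) = ∑ s ∈ S, (b s : ℤ) := by
        rw [← sum_filter_add_sum_filter_not univ (· ∈ S)]
        have e1 : univ.filter (· ∈ S) = S := by ext; simp
        rw [e1, sum_congr rfl (g := fun s => (b s : ℤ)) (by intro x hx; simp [hx])]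
        rw [sum_eq_zero (s := univ.filter (· ∉ S)) (by intro x hx; simp at hx; simp [hx])]
        simp
      rw [this]
      linarith)
    have h4 : ∏ s, G.psibar g N s ^ (if s ∈ S then b s else 0) =
        ∏ s ∈ S, G.psibar g N s ^ b s := by
      rw [← prod_subset (subset_univ S) (by intro x _ hx; simp [hx])]
      exact prod_congr rfl (by intro x hx; simp [hx])
    rw [← h4]; exact h3
  rw [h2, zero_mul]
  unfold mixed
  rw [map_zero, zero_mul, map_zero]

end Pool.Agent.Results.MP_b03aaa_ag
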